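import Pool.Agent.Helper76.Ell.Final
import Pool.Agent.Helper72.Ell.Path

/-!
# The optimal constant for piercing ellipses of maximum spanning trees

For every finite set `P` of at least two points of the Euclidean plane and every maximum-weight
spanning tree of `P`, the closed ellipses `{x : |xa| + |xb| ≤ α |ab|}` over the edges `ab` of the
tree have a common point for `α = (1 + √3) / 2`, and this is the least such constant.
The definitions (`Plane`, `edgeLength`, `weight`, `IsMaxSpanningTree`, `Admissible`, `alphaStar`)
are in `Pool/Agent/Helper76/Ell/Defs.lean`.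
-/

namespace Pool.Agent.Results.MP_4041a2_co.OptimalConstant

open Ell76

theorem star : Star3 ((1 + √3) / 2) := by
  intro p q _ h
  exact Pool.Agent.Helper72.Ell.star3 (by simp) p q h

theorem path : Path3 ((1 + √3) / 2) := by
  intro a1 b1 u v a3 b3 _ huv _ h1 h2 h3 h4 h5 h6 h7 h8 h9 h10 h11 h12 h13 h14 h15 h16
  exact Pool.Agent.Helper72.Ell.path3 (by simp)
    ⟨h1, h2, h3, h4, h5, h6, h7, h8, h9, h10, h11, h12, h13, h14, h15, h16⟩ huv

/-- **Answer to Q1**: `α* = (1 + √3) / 2`, and this value is itself admissible. -/
theorem result : alphaStar = (1 + √3) / 2 ∧ 1 ≤ (1 + √3) / 2 ∧ Admissible ((1 + √3) / 2) :=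
  ⟨alphaStar_of star path, (isLeast_of star path).1.1, (isLeast_of star path).1.2⟩

end Pool.Agent.Results.MP_4041a2_co.OptimalConstant
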